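import Pool.Agent.Helper95_PSC.Stmts

set_option autoImplicit false

/-!
The flip relation.
-/

namespace Pool.Agent.PSC.H64

open Pool.Agent.PSC Pool.Agent.Helper40_Pisot MeasureTheory

variable {m : ℕ}

lemma cnt_nil : cnt ([] : List (Fin (m + 1))) = 0 := by
  funext i
  simp [cnt]

lemma cnt_cons (a : Fin (m + 1)) (w : List (Fin (m + 1))) : cnt (a :: w) = ee a + cnt w := by
  funext i
  by_cases h : i = a
  · subst h
    simp [cnt, ee]
    ring
  · have h' : ¬ a = i := fun h2 => h h2.symm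
    simp [cnt, ee, h, h']

lemma sum_cnt (w : List (Fin (m + 1))) : ∑ i, cnt w i = (w.length : ℤ) := by
  induction w with
  | nil => simp [cnt_nil]
  | cons a w ih =>
    rw [cnt_cons]
    simp only [Pi.add_apply, Finset.sum_add_distrib, ih, ee]
    simp
    ring

lemma cnt_single (a : Fin (m + 1)) : cnt [a] = ee a := by
  rw [cnt_cons, cnt_nil, add_zero]

lemma ex_cons (a : Fin (m + 1)) (w1 : List (Fin (m + 1))) (p w : Lat m) (j : Fin (m + 1)) :
    (∃ t : ℕ, (a :: w1)[t]? = some j ∧ w = p + cnt ((a :: w1).take t)) ↔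
      (j = a ∧ w = p) ∨ ∃ t : ℕ, w1[t]? = some j ∧ w = (p + ee a) + cnt (w1.take t) := by
  constructor
  · rintro ⟨t, ht, hw⟩
    cases t with
    | zero =>
      left
      simp only [List.getElem?_cons_zero, Option.some.injEq] at ht
      simp only [List.take_zero, cnt_nil, add_zero] at hw
      exact ⟨ht.symm, hw⟩
    | succ t =>
      right
      refine ⟨t, by simpa using ht, ?_⟩
      rw [hw, List.take_succ_cons, cnt_cons, add_assoc]
  · rintro (⟨rfl, rfl⟩ | ⟨t, ht, hw⟩)
    · exact ⟨0, by simp, by simp [cnt_nil]⟩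
    · refine ⟨t + 1, by simpa using ht, ?_⟩
      rw [List.take_succ_cons, cnt_cons, ← add_assoc]
      exact hw

lemma excl (a j : Fin (m + 1)) (w1 : List (Fin (m + 1))) (p w : Lat m) (h : j = a ∧ w = p) :
    ¬ ∃ t : ℕ, w1[t]? = some j ∧ w = (p + ee a) + cnt (w1.take t) := by
  obtain ⟨rfl, rfl⟩ := h
  rintro ⟨t, ht, hw⟩
  have h1 := congrArg (fun v : Lat m => ∑ i, v i) hw
  simp only [Pi.add_apply, Finset.sum_add_distrib, sum_cnt, ee] at h1
  simp only [Finset.sum_pi_single', Finset.mem_univ, if_true] at h1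
  omega

lemma if_or {A B : Prop} [Decidable A] [Decidable B] [Decidable (A ∨ B)] (h : A → ¬ B) :
    (if A ∨ B then (1 : ℝ) else 0) = (if A then 1 else 0) + (if B then 1 else 0) := by
  by_cases hA : A
  · have := h hA
    simp [hA, this]
  · by_cases hB : B <;> simp [hA, hB]

open Classical in
/-- The telescoping sum along a path. -/
lemma key (w0 : List (Fin (m + 1))) (p w : Lat m) :
    (∑ i, (if ∃ t : ℕ, w0[t]? = some i ∧ w - ee i = p + cnt (w0.take t) then (1 : ℝ) else 0))
      - ∑ j, (if ∃ t : ℕ, w0[t]? = some j ∧ w = p + cnt (w0.take t) then (1 : ℝ) else 0)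
      = (if w = p + cnt w0 then 1 else 0) - (if w = p then 1 else 0) := by
  induction w0 generalizing p with
  | nil => simp [cnt_nil]
  | cons a w1 ih =>
    have h1 : ∀ i, (if ∃ t : ℕ, (a :: w1)[t]? = some i ∧
        w - ee i = p + cnt ((a :: w1).take t) then (1 : ℝ) else 0) =
        (if i = a ∧ w - ee i = p then 1 else 0) +
        (if ∃ t : ℕ, w1[t]? = some i ∧ w - ee i = (p + ee a) + cnt (w1.take t)
          then (1 : ℝ) else 0) := by
      intro i
      rw [if_congr (ex_cons a w1 p (w - ee i) i) rfl rfl]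
      exact if_or (excl a i w1 p (w - ee i))
    have h2 : ∀ i, (if ∃ t : ℕ, (a :: w1)[t]? = some i ∧
        w = p + cnt ((a :: w1).take t) then (1 : ℝ) else 0) =
        (if i = a ∧ w = p then 1 else 0) +
        (if ∃ t : ℕ, w1[t]? = some i ∧ w = (p + ee a) + cnt (w1.take t)
          then (1 : ℝ) else 0) := by
      intro i
      rw [if_congr (ex_cons a w1 p w i) rfl rfl]
      exact if_or (excl a i w1 p w)
    simp only [h1, h2, Finset.sum_add_distrib]
    have h3 : (∑ i, (if i = a ∧ w - ee i = p then (1 : ℝ) else 0)) =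
        if w = p + ee a then 1 else 0 := by
      rw [Finset.sum_eq_single a]
      · by_cases h : w = p + ee a
        · simp [h]
        · have : ¬ w - ee a = p := fun h2 => h (by rw [← h2]; abel)
          simp [h, this]
      · intro b _ hb
        simp [hb]
      · simp
    have h4 : (∑ i, (if i = a ∧ w = p then (1 : ℝ) else 0)) = if w = p then 1 else 0 := by
      rw [Finset.sum_eq_single a]
      · simp
      · intro b _ hb
        simp [hb]
      · simp
    have h5 := ih (p + ee a)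
    rw [cnt_cons, ← add_assoc, h3, h4]
    linarith

lemma par_one {σ : Fin (m + 1) → List (Fin (m + 1))}
    {M : Matrix (Fin (m + 1)) (Fin (m + 1)) ℤ} (G F : Face m) :
    Par σ M 1 G F ↔ ∃ t : ℕ, (σ G.2)[t]? = some F.2 ∧
      F.1 = M.mulVec G.1 + cnt ((σ G.2).take t) := by
  unfold Par
  have : it σ 1 [G.2] = σ G.2 := by
    rw [it_succ', it_zero]
    simp
  rw [this, pow_one]

lemma cnt_sigma {σ : Fin (m + 1) → List (Fin (m + 1))}
    {M : Matrix (Fin (m + 1)) (Fin (m + 1)) ℤ} (hM : Inc σ M) (a : Fin (m + 1)) :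
    cnt (σ a) = M.mulVec (ee a) := by
  funext i
  simp only [cnt, ee, Matrix.mulVec_single_one]
  exact (hM i a).symm

open Classical in
lemma parent_sum (g : Face m → ℝ) {σ : Fin (m + 1) → List (Fin (m + 1))}
    {M : Matrix (Fin (m + 1)) (Fin (m + 1)) ℤ} (hM : Inc σ M)
    (hinj : Function.Injective M.mulVec) (w w' : Lat m) (hw : M.mulVec w' = w)
    (Pa : Face m → Finset (Face m)) (hPa : ∀ F G, G ∈ Pa F ↔ Par σ M 1 G F) :
    (∑ i, ∑ G ∈ Pa (w - ee i, i), g G) - ∑ j, ∑ G ∈ Pa (w, j), g G =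
      (∑ i, g (w' - ee i, i)) - ∑ j, g (w', j) := by
  set U : Finset (Face m) := (Finset.univ.biUnion fun i => Pa (w - ee i, i)) ∪
    (Finset.univ.biUnion fun j => Pa (w, j)) ∪
    (Finset.univ.image fun i => ((w' - ee i, i) : Face m)) ∪
    (Finset.univ.image fun j => ((w', j) : Face m)) with hU
  have h1 : ∀ F : Face m, Pa F ⊆ U →
      ∑ G ∈ Pa F, g G = ∑ G ∈ U, (if Par σ M 1 G F then (1 : ℝ) else 0) * g G := by
    intro F hF
    rw [← Finset.sum_subset hF (f := fun G => (if Par σ M 1 G F then (1 : ℝ) else 0) * g G)]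
    · refine Finset.sum_congr rfl fun G hG => ?_
      rw [if_pos ((hPa F G).1 hG), one_mul]
    · intro G _ hG
      rw [if_neg (fun h => hG ((hPa F G).2 h)), zero_mul]
  have hs1 : ∀ i, Pa (w - ee i, i) ⊆ U := by
    intro i G hG
    simp only [hU, Finset.mem_union, Finset.mem_biUnion, Finset.mem_univ, true_and]
    exact Or.inl (Or.inl (Or.inl ⟨i, hG⟩))
  have hs2 : ∀ i, Pa (w, i) ⊆ U := by
    intro i G hG
    simp only [hU, Finset.mem_union, Finset.mem_biUnion, Finset.mem_univ, true_and]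
    exact Or.inl (Or.inl (Or.inr ⟨i, hG⟩))
  have h2 : (∑ i, g (w' - ee i, i)) =
      ∑ G ∈ U, (if w = M.mulVec G.1 + cnt (σ G.2) then (1 : ℝ) else 0) * g G := by
    have hs : (Finset.univ.image fun i => ((w' - ee i, i) : Face m)) ⊆ U := by
      intro G hG
      simp only [hU, Finset.mem_union]
      exact Or.inl (Or.inr hG)
    rw [← Finset.sum_subset hs (f := fun G =>
      (if w = M.mulVec G.1 + cnt (σ G.2) then (1 : ℝ) else 0) * g G)]
    · rw [Finset.sum_image]
      · refine Finset.sum_congr rfl fun i _ => ?_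
        rw [if_pos, one_mul]
        show w = M.mulVec (w' - ee i) + cnt (σ i)
        rw [cnt_sigma hM, ← Matrix.mulVec_add, sub_add_cancel, hw]
      · intro i _ j _ hij
        exact (Prod.ext_iff.1 hij).2
    · intro G _ hG
      rw [if_neg, zero_mul]
      intro h
      apply hG
      rw [cnt_sigma hM, ← Matrix.mulVec_add, ← hw] at h
      have h' := hinj h
      rw [Finset.mem_image]
      refine ⟨G.2, Finset.mem_univ _, ?_⟩
      rw [h', add_sub_cancel_right]
  have h3 : (∑ j, g (w', j)) =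
      ∑ G ∈ U, (if w = M.mulVec G.1 then (1 : ℝ) else 0) * g G := by
    have hs : (Finset.univ.image fun j => ((w', j) : Face m)) ⊆ U := by
      intro G hG
      simp only [hU, Finset.mem_union]
      exact Or.inr hG
    rw [← Finset.sum_subset hs (f := fun G =>
      (if w = M.mulVec G.1 then (1 : ℝ) else 0) * g G)]
    · rw [Finset.sum_image]
      · refine Finset.sum_congr rfl fun i _ => ?_
        rw [if_pos, one_mul]
        exact hw.symm
      · intro i _ j _ hij
        exact (Prod.ext_iff.1 hij).2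
    · intro G _ hG
      rw [if_neg, zero_mul]
      intro h
      apply hG
      rw [← hw] at h
      have h' := hinj h
      rw [Finset.mem_image]
      refine ⟨G.2, Finset.mem_univ _, ?_⟩
      rw [h']
  rw [Finset.sum_congr rfl (fun i _ => h1 _ (hs1 i)), Finset.sum_congr rfl (fun i _ => h1 _ (hs2 i)),
    Finset.sum_comm, Finset.sum_comm (s := Finset.univ) (t := U), h2, h3]
  rw [← Finset.sum_sub_distrib, ← Finset.sum_sub_distrib]
  refine Finset.sum_congr rfl fun G _ => ?_
  rw [← Finset.sum_mul, ← Finset.sum_mul, ← sub_mul, ← sub_mul]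
  congr 1
  have h4 := key (σ G.2) (M.mulVec G.1) w
  rw [← h4]
  congr 1
  · refine Finset.sum_congr rfl fun i _ => ?_
    exact if_congr (par_one G (w - ee i, i)) rfl rfl
  · refine Finset.sum_congr rfl fun i _ => ?_
    exact if_congr (par_one G (w, i)) rfl rfl

/-- The difference of the two sides of the flip relation. -/
noncomputable def Dw (σ : Fin (m + 1) → List (Fin (m + 1))) (α : Fin (m + 1) → ℝ)
    (x0 : ℤ → Fin (m + 1)) (w : Lat m) (y : E m) : ℝ :=
  (∑ i, ind (tile σ α x0 (w - ee i, i)) y) - ∑ j, ind (tile σ α x0 (w, j)) y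

section

variable {σ : Fin (m + 1) → List (Fin (m + 1))} {M : Matrix (Fin (m + 1)) (Fin (m + 1)) ℤ}
    {r : ℝ} {α l : Fin (m + 1) → ℝ} {a0 : Fin (m + 1)} {x0 : ℤ → Fin (m + 1)}

lemma vol_tile (hT : TileStmt) (D : Dat σ M r α l a0 x0) (v : Lat m) (i : Fin (m + 1)) :
    volume (tile σ α x0 (v, i)) = volume (tile σ α x0 ((0 : Lat m), i)) := by
  have h := (hT m σ M r α l a0 x0 D).2.1 v (0, i)
  have h2 : tr v ((0 : Lat m), i) = (v, i) := by simp [tr]
  rw [h2] at h
  rw [h, Set.image_add_left, measure_preimage_add]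

lemma meas_tile (hT : TileStmt) (D : Dat σ M r α l a0 x0) (F : Face m) :
    MeasurableSet (tile σ α x0 F) :=
  ((hT m σ M r α l a0 x0 D).1 F).measurableSet

lemma meas_B (M : Matrix (Fin (m + 1)) (Fin (m + 1)) ℤ) (α : Fin (m + 1) → ℝ) (n : ℕ) :
    Measurable (Bn M α n) :=
  (LinearMap.continuous_of_finiteDimensional (Bn M α n)).measurable

lemma map_B (hB : LatBStmt) (D : Dat σ M r α l a0 x0) :
    Measure.map (Bn M α 1) (volume : Measure (E m)) =
      ENNReal.ofReal r • (volume : Measure (E m)) := by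
  obtain ⟨-, -, -, hbij, -, hvol⟩ := hB m σ M r α l a0 x0 D
  ext s hs
  rw [Measure.map_apply (meas_B M α 1) hs, Measure.smul_apply, smul_eq_mul]
  have h1 := hvol 1 (Bn M α 1 ⁻¹' s)
  rw [Set.image_preimage_eq _ (hbij 1).2, pow_one] at h1
  rw [h1, ← mul_assoc, ← ENNReal.ofReal_mul (by linarith [D.pf.one_lt]),
    mul_inv_cancel₀ (by linarith [D.pf.one_lt]), ENNReal.ofReal_one, one_mul]

lemma ae_B (hB : LatBStmt) (D : Dat σ M r α l a0 x0) {P : E m → Prop}
    (h : ∀ᵐ y ∂(volume : Measure (E m)), P y) :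
    ∀ᵐ z ∂(volume : Measure (E m)), P (Bn M α 1 z) := by
  apply ae_of_ae_map (meas_B M α 1).aemeasurable
  rw [map_B hB D]
  exact Measure.ae_smul_measure h _

lemma ind_one {S : Set (E m)} {y : E m} (h : y ∈ S) : ind S y = 1 := by
  unfold ind
  rw [Set.indicator_of_mem h]

lemma ind_zero {S : Set (E m)} {y : E m} (h : y ∉ S) : ind S y = 0 := by
  unfold ind
  rw [Set.indicator_of_notMem h]

lemma ind_B (hB : LatBStmt) (hGi : GifsStmt) (D : Dat σ M r α l a0 x0)
    (Pa : Face m → Finset (Face m)) (hPa : ∀ F G, G ∈ Pa F ↔ Par σ M 1 G F) (F : Face m) :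
    ∀ᵐ z ∂(volume : Measure (E m)), ind (tile σ α x0 F) (Bn M α 1 z) =
      ∑ G ∈ Pa F, ind (tile σ α x0 G) z := by
  obtain ⟨-, -, -, hbij, -, -⟩ := hB m σ M r α l a0 x0 D
  obtain ⟨hg1, hg2⟩ := hGi m σ M r α l a0 x0 D
  have h1 := ae_B hB D (hg1 1 F)
  have h2 : ∀ᵐ z ∂(volume : Measure (E m)), ∀ G, ∀ G', (Par σ M 1 G F ∧ Par σ M 1 G' F ∧ G ≠ G') →
      z ∉ tile σ α x0 G ∩ tile σ α x0 G' := by
    refine ae_all_iff.2 fun G => ae_all_iff.2 fun G' => ?_
    by_cases hh : Par σ M 1 G F ∧ Par σ M 1 G' F ∧ G ≠ G'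
    · have h3 := measure_eq_zero_iff_ae_notMem.1 (hg2 1 G G' F hh.1 hh.2.1 hh.2.2)
      filter_upwards [h3] with z hz _
      exact hz
    · exact Filter.Eventually.of_forall (fun z h => absurd h hh)
  filter_upwards [h1, h2] with z hz1 hz2
  by_cases h : Bn M α 1 z ∈ tile σ α x0 F
  · obtain ⟨G, hG, z', hz', hzz⟩ := hz1.1 h
    have hzz' : z' = z := (hbij 1).1 hzz
    subst hzz'
    rw [ind_one h, Finset.sum_eq_single G]
    · rw [ind_one hz']
    · intro G' hG' hne
      apply ind_zero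
      intro h5
      exact hz2 G G' ⟨hG, (hPa F G').1 hG', hne.symm⟩ ⟨hz', h5⟩
    · intro h5
      exact absurd ((hPa F G).2 hG) h5
  · rw [ind_zero h, Finset.sum_eq_zero]
    intro G hG
    apply ind_zero
    intro h5
    exact h (hz1.2 ⟨G, (hPa F G).1 hG, z, h5, rfl⟩)

lemma Dw_B (hB : LatBStmt) (hGi : GifsStmt) (hPar : ParStmt) (D : Dat σ M r α l a0 x0)
    (hinj : Function.Injective M.mulVec) (w w' : Lat m) (hw : M.mulVec w' = w) :
    ∀ᵐ z ∂(volume : Measure (E m)), Dw σ α x0 w (Bn M α 1 z) = Dw σ α x0 w' z := by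
  have hfin := (hPar m σ M r α l a0 x0 D).2.2.1 1
  set Pa : Face m → Finset (Face m) := fun F => (hfin F).toFinset with hPadef
  have hPa : ∀ F G, G ∈ Pa F ↔ Par σ M 1 G F := by
    intro F G
    simp [hPadef]
  have h1 : ∀ᵐ z ∂(volume : Measure (E m)), ∀ F : Face m,
      ind (tile σ α x0 F) (Bn M α 1 z) = ∑ G ∈ Pa F, ind (tile σ α x0 G) z :=
    ae_all_iff.2 fun F => ind_B hB hGi D Pa hPa F
  filter_upwards [h1] with z hz
  unfold Dw
  simp only [hz]
  exact parent_sum (fun G => ind (tile σ α x0 G) z) D.inc hinj w w' hw Pa hPa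

lemma enorm_ind (S : Set (E m)) (y : E m) :
    ‖ind S y‖ₑ = S.indicator (fun _ => (1 : ENNReal)) y := by
  by_cases h : y ∈ S
  · rw [ind_one h, Set.indicator_of_mem h]
    simp
  · rw [ind_zero h, Set.indicator_of_notMem h]
    simp

lemma meas_ind {S : Set (E m)} (h : MeasurableSet S) : Measurable (ind S) :=
  measurable_const.indicator h

lemma meas_Dw (hT : TileStmt) (D : Dat σ M r α l a0 x0) (w : Lat m) :
    Measurable (Dw σ α x0 w) := by
  unfold Dw
  apply Measurable.sub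
  · exact Finset.measurable_fun_sum _ fun i _ => meas_ind (meas_tile hT D _)
  · exact Finset.measurable_fun_sum _ fun i _ => meas_ind (meas_tile hT D _)

lemma Dw_bound (hT : TileStmt) (D : Dat σ M r α l a0 x0) (w : Lat m) :
    ∫⁻ y, ‖Dw σ α x0 w y‖ₑ ≤ (∑ i, volume (tile σ α x0 ((0 : Lat m), i))) +
      ∑ i, volume (tile σ α x0 ((0 : Lat m), i)) := by
  have h1 : ∀ y, ‖Dw σ α x0 w y‖ₑ ≤ (∑ i, (tile σ α x0 (w - ee i, i)).indicator
      (fun _ => (1 : ENNReal)) y) + ∑ i, (tile σ α x0 (w, i)).indicator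
      (fun _ => (1 : ENNReal)) y := by
    intro y
    unfold Dw
    refine enorm_sub_le.trans (add_le_add ?_ ?_)
    · refine (enorm_sum_le _ _).trans (le_of_eq ?_)
      exact Finset.sum_congr rfl fun i _ => enorm_ind _ _
    · refine (enorm_sum_le _ _).trans (le_of_eq ?_)
      exact Finset.sum_congr rfl fun i _ => enorm_ind _ _
  have hm : ∀ F : Face m, Measurable ((tile σ α x0 F).indicator (fun _ => (1 : ENNReal))) :=
    fun F => measurable_const.indicator (meas_tile hT D F)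
  refine (lintegral_mono h1).trans ?_
  rw [lintegral_add_left (Finset.measurable_fun_sum _ fun i _ => hm _)]
  rw [lintegral_finsetSum _ (fun i _ => hm _), lintegral_finsetSum _ (fun i _ => hm _)]
  refine le_of_eq ?_
  congr 1
  · refine Finset.sum_congr rfl fun i _ => ?_
    rw [lintegral_indicator (meas_tile hT D _), setLIntegral_const, one_mul, vol_tile hT D]
  · refine Finset.sum_congr rfl fun i _ => ?_
    rw [lintegral_indicator (meas_tile hT D _), setLIntegral_const, one_mul, vol_tile hT D]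

lemma unimod (D : Dat σ M r α l a0 x0) : IsUnit M.det := by
  have h := D.pf.det
  have h2 : |M.det| = 1 := by exact_mod_cast h
  exact Int.isUnit_iff_abs_eq.2 h2

lemma Dw_zero (hT : TileStmt) (hB : LatBStmt) (hGi : GifsStmt) (hPar : ParStmt)
    (D : Dat σ M r α l a0 x0) (w : Lat m) :
    ∀ᵐ y ∂(volume : Measure (E m)), Dw σ α x0 w y = 0 := by
  have hu := unimod D
  have hinj : Function.Injective M.mulVec := Matrix.mulVec_injective_of_isUnit
    ((Matrix.isUnit_iff_isUnit_det _).2 hu)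
  have hsurj : ∀ w : Lat m, ∃ w', M.mulVec w' = w := by
    intro w
    refine ⟨M⁻¹.mulVec w, ?_⟩
    rw [Matrix.mulVec_mulVec, Matrix.mul_nonsing_inv _ hu, Matrix.one_mulVec]
  have hstep : ∀ w : Lat m, ∃ w' : Lat m, ENNReal.ofReal r * ∫⁻ y, ‖Dw σ α x0 w y‖ₑ =
      ∫⁻ y, ‖Dw σ α x0 w' y‖ₑ := by
    intro w
    obtain ⟨w', hw⟩ := hsurj w
    refine ⟨w', ?_⟩
    have h1 : ∫⁻ z, ‖Dw σ α x0 w' z‖ₑ = ∫⁻ z, ‖Dw σ α x0 w (Bn M α 1 z)‖ₑ := by
      apply lintegral_congr_ae
      filter_upwards [Dw_B hB hGi hPar D hinj w w' hw] with z hz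
      rw [hz]
    rw [h1, ← lintegral_map (f := fun y => ‖Dw σ α x0 w y‖ₑ) (meas_Dw hT D w).enorm
      (meas_B M α 1), map_B hB D, lintegral_smul_measure, smul_eq_mul]
  set s : ENNReal := ⨆ w : Lat m, ∫⁻ y, ‖Dw σ α x0 w y‖ₑ with hs
  have hsb : s ≠ ⊤ := by
    have h1 : s ≤ (∑ i, volume (tile σ α x0 ((0 : Lat m), i))) +
      ∑ i, volume (tile σ α x0 ((0 : Lat m), i)) := iSup_le fun w => Dw_bound hT D w
    refine ne_top_of_le_ne_top ?_ h1
    have h2 : (∑ i, volume (tile σ α x0 ((0 : Lat m), i))) ≠ ⊤ :=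
      ENNReal.sum_ne_top.2 fun i _ => ((hT m σ M r α l a0 x0 D).1 _).measure_lt_top.ne
    exact ENNReal.add_ne_top.2 ⟨h2, h2⟩
  have hrs : ENNReal.ofReal r * s ≤ s := by
    rw [hs, ENNReal.mul_iSup]
    refine iSup_le fun w => ?_
    obtain ⟨w', hw'⟩ := hstep w
    rw [hw']
    exact le_iSup (fun w : Lat m => ∫⁻ y, ‖Dw σ α x0 w y‖ₑ) w'
  have hs0 : s = 0 := by
    have h1 := ENNReal.toReal_mono hsb hrs
    rw [ENNReal.toReal_mul, ENNReal.toReal_ofReal (by linarith [D.pf.one_lt])] at h1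
    have h2 : s.toReal = 0 := by
      have h3 : 0 ≤ s.toReal := ENNReal.toReal_nonneg
      have h4 := D.pf.one_lt
      nlinarith
    exact ((ENNReal.toReal_eq_zero_iff _).1 h2).resolve_right hsb
  have h1 : ∫⁻ y, ‖Dw σ α x0 w y‖ₑ = 0 := by
    rw [← nonpos_iff_eq_zero, ← hs0, hs]
    exact le_iSup (fun w : Lat m => ∫⁻ y, ‖Dw σ α x0 w y‖ₑ) w
  rw [lintegral_eq_zero_iff (meas_Dw hT D w).enorm] at h1
  filter_upwards [h1] with y hy
  simpa using hy

end

/-- The flip relation. -/
theorem flip (hT : TileStmt) (hB : LatBStmt) (hGi : GifsStmt) (hPar : ParStmt) : FlipStmt := by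
  intro m σ M r α l a0 x0 D
  have h1 : ∀ w : Lat m, ∀ᵐ y ∂(volume : Measure (E m)),
      ∑ i, ind (tile σ α x0 (w - ee i, i)) y = ∑ j, ind (tile σ α x0 (w, j)) y := by
    intro w
    filter_upwards [Dw_zero hT hB hGi hPar D w] with y hy
    unfold Dw at hy
    linarith
  refine ⟨h1, ?_⟩
  unfold Rel
  filter_upwards [h1 0] with y hy
  have h2 : ∀ a, act α (uv a) (ind (tile σ α x0 ((0 : Lat m), a))) y =
      ind (tile σ α x0 ((0 : Lat m) - ee a, a)) y - ind (tile σ α x0 ((0 : Lat m), a)) y := by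
    intro a
    have h3 : (uv a : R m).coeff = Finsupp.single (-ee a) 1 - Finsupp.single 0 1 := rfl
    unfold act
    rw [h3, Finsupp.sum_sub_index (by intro v b c; push_cast; ring), Finsupp.sum_single_index
      (by simp), Finsupp.sum_single_index (by simp)]
    have h4 : pr α (0 : Lat m) = 0 := by
      funext i
      simp [pr]
    have h5 := (hT m σ M r α l a0 x0 D).2.1 (-ee a) ((0 : Lat m), a)
    have h6 : tr (-ee a) ((0 : Lat m), a) = ((0 : Lat m) - ee a, a) := by
      simp [tr]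
    rw [h6] at h5
    rw [h4, sub_zero, h5]
    simp only [Rat.cast_one, one_mul]
    congr 1
    by_cases h7 : y - pr α (-ee a) ∈ tile σ α x0 ((0 : Lat m), a)
    · rw [ind_one h7, ind_one]
      exact ⟨y - pr α (-ee a), h7, by simp⟩
    · rw [ind_zero h7, ind_zero]
      rintro ⟨z, hz, hzy⟩
      apply h7
      rw [← hzy]
      simpa using hz
  simp only [h2, Finset.sum_sub_distrib]
  rw [hy, sub_self]

end Pool.Agent.PSC.H64
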